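import Mathlib
import Pool.Agent.H581R.FF.Stubs2
import Pool.Agent.H581R.FF.TLIM

/-! Approximation of finitely many generators by words in a smaller set of letters. -/

namespace Pool.Agent.H414R3.FI

open Pool.Agent.H581R.FF
open Pool.Agent.H581R.FF.TLIM
open Pool.Agent.H667R2.FG (Ell permOp lam rho delta LG EltG tau)

theorem std_comp {α β G : Type} [Group G] (E : FreeGroup α →* FreeGroup β)
    (hE : Function.Injective E) (π : FreeGroup β →* unitary (Op G)) (h : Std π) :
    Std (π.comp E) where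
  comm := fun w g => h.comm (E w) g
  free := fun w hw => h.free (E w) fun h0 => hw (hE (by rw [h0, map_one]))

theorem cyc_equiv {α β G : Type} [Group G] (E : FreeGroup α ≃* FreeGroup β)
    (π : FreeGroup β →* unitary (Op G)) (h : Cyc π) : Cyc (π.comp E.toMonoidHom) := by
  intro ξ ε hε
  obtain ⟨f, hf⟩ := h ξ ε hε
  obtain ⟨f', hf'⟩ := exists_image E.symm.toMonoidHom (π.comp E.toMonoidHom) f
  refine ⟨f', ?_⟩
  rw [hf']
  have : (π.comp E.toMonoidHom).comp E.symm.toMonoidHom = π := by
    ext w; simp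
  rw [this]; exact hf

theorem exists_preimage {ι ι' : Type} (e : ι → ι') (a u : ι) (g : FreeGroup ι')
    (hg : g ∈ Subgroup.closure {FreeGroup.of (e a), FreeGroup.of (e a), FreeGroup.of (e u)}) :
    ∃ h : FreeGroup ι, FreeGroup.map e h = g := by
  have : Subgroup.closure {FreeGroup.of (e a), FreeGroup.of (e a), FreeGroup.of (e u)} ≤
      (FreeGroup.map e).range := by
    rw [Subgroup.closure_le]
    intro x hx
    simp only [Set.mem_insert_iff, Set.mem_singleton_iff] at hx
    rcases hx with rfl | rfl | rfl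
    · exact ⟨FreeGroup.of a, FreeGroup.map.of⟩
    · exact ⟨FreeGroup.of a, FreeGroup.map.of⟩
    · exact ⟨FreeGroup.of u, FreeGroup.map.of⟩
  exact this hg

/-- `π'` is close to `π` and the generators in `S` are approximated by the words `g z` in the
letters from `ι` -/
structure Good {ι κ G : Type} [Group G] (e : ι → κ) (u : ι) (S : Finset κ) (ε : ℝ)
    (π π' : FreeGroup κ →* unitary (Op G)) (g : κ → FreeGroup ι) : Prop where
  std : Std π'
  cyc : Cyc π'
  app : ∀ z ∈ S, ‖((π' (FreeGroup.map e (g z)) : Op G) - (π (FreeGroup.of z) : Op G)) (delta 1)‖ ≤ ε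
  fix : ∀ z, z ∉ S → z ≠ e u → π' (FreeGroup.of z) = π (FreeGroup.of z)
  mov : ‖((π' (FreeGroup.of (e u)) : Op G) - (π (FreeGroup.of (e u)) : Op G)) (delta 1)‖ ≤ ε

/-- one letter: the stage lemma transported to `κ` -/
theorem one_letter (hst : S_STAGE2) {ι κ G : Type} [Group G] (e : ι → κ)
    (he : Function.Injective e) (a u : ι) (hau : a ≠ u) (j : κ) (hj : j ∉ Set.range e)
    (π : FreeGroup κ →* unitary (Op G)) (hS : Std π) (hC : Cyc π) (δ : ℝ) (hδ : 0 < δ) :
    ∃ (π' : FreeGroup κ →* unitary (Op G)) (h : FreeGroup ι), Std π' ∧ Cyc π' ∧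
      (∀ z, z ≠ j → z ≠ e u → π' (FreeGroup.of z) = π (FreeGroup.of z)) ∧
      ‖((π' (FreeGroup.of (e u)) : Op G) - (π (FreeGroup.of (e u)) : Op G)) (delta 1)‖ < δ ∧
      ‖((π' (FreeGroup.map e h) : Op G) - (π (FreeGroup.of j) : Op G)) (delta 1)‖ < δ := by
  classical
  let E : FreeGroup (Option {b // b ≠ j}) ≃* FreeGroup κ :=
    FreeGroup.freeGroupCongr (Equiv.optionSubtypeNe j)
  have hEn : E (FreeGroup.of none) = FreeGroup.of j := by
    simp [E]
  have hEs : ∀ (z : κ) (hz : z ≠ j), E (FreeGroup.of (some ⟨z, hz⟩)) = FreeGroup.of z := by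
    intro z hz; simp [E]
  have hEs' : ∀ (z : κ) (hz : z ≠ j), E.symm (FreeGroup.of z) = FreeGroup.of (some ⟨z, hz⟩) := by
    intro z hz; rw [← hEs z hz, MulEquiv.symm_apply_apply]
  have hne : ∀ i, e i ≠ j := fun i h => hj ⟨i, h⟩
  let e' : ι → {b // b ≠ j} := fun i => ⟨e i, hne i⟩
  have hau' : e' a ≠ e' u := fun h => hau (he (congrArg Subtype.val h))
  obtain ⟨π', g, hS', hC', hg, hfix, hu, hv⟩ := hst {b // b ≠ j} G (e' a) (e' u) hau'
    (π.comp E.toMonoidHom) (std_comp _ E.injective π hS) (cyc_equiv E π hC) δ hδ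
  obtain ⟨h, rfl⟩ := exists_preimage e' a u g hg
  have hE3 : ∀ w : FreeGroup ι, E.symm (FreeGroup.map e w) = jj (FreeGroup.map e' w) := by
    intro w
    have : (E.symm.toMonoidHom.comp (FreeGroup.map e)) =
        (jj (ι := {b // b ≠ j})).comp (FreeGroup.map e') := by
      ext i
      simp only [MonoidHom.comp_apply, FreeGroup.map.of, MulEquiv.toMonoidHom_eq_coe,
        MonoidHom.coe_coe]
      exact hEs' (e i) (hne i)
    exact DFunLike.congr_fun this w
  refine ⟨π'.comp E.symm.toMonoidHom, h, std_comp _ E.symm.injective π' hS', cyc_equiv E.symm π' hC',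
    ?_, ?_, ?_⟩
  · intro z hz hzu
    have h1 := hfix ⟨z, hz⟩ (fun h => hzu (congrArg Subtype.val h))
    simp only [MonoidHom.comp_apply, MulEquiv.toMonoidHom_eq_coe, MonoidHom.coe_coe] at h1 ⊢
    rw [hEs' z hz, h1, hEs z hz]
  · simp only [MonoidHom.comp_apply, MulEquiv.toMonoidHom_eq_coe, MonoidHom.coe_coe] at hu ⊢
    rw [hEs' (e u) (hne u)]
    have h2 := hEs (e u) (hne u)
    rw [h2] at hu
    exact hu
  · simp only [MonoidHom.comp_apply, MulEquiv.toMonoidHom_eq_coe, MonoidHom.coe_coe] at hv ⊢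
    rw [hE3]
    rw [hEn] at hv
    exact hv

theorem dens (hst : S_STAGE2) (hW : S_WDIST) {ι κ G : Type} [Group G] (e : ι → κ)
    (he : Function.Injective e) (a u : ι) (hau : a ≠ u) (S : Finset κ) :
    (∀ z ∈ S, z ∉ Set.range e) → ∀ (π : FreeGroup κ →* unitary (Op G)), Std π → Cyc π →
    ∀ ε : ℝ, 0 < ε → ∃ (π' : FreeGroup κ →* unitary (Op G)) (g : κ → FreeGroup ι),
      Good e u S ε π π' g := by
  classical
  induction S using Finset.induction_on with
  | empty =>
    intro _ π hS hC ε hε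
    refine ⟨π, fun _ => 1, hS, hC, ?_, fun _ _ _ => rfl, ?_⟩
    · intro z hz; simp at hz
    · rw [sub_self]; simpa using hε.le
  | insert j S' hj ih =>
    intro hr π hS hC ε hε
    obtain ⟨π₁, g₁, h1⟩ := ih (fun z hz => hr z (Finset.mem_insert_of_mem hz)) π hS hC (ε / 2)
      (by positivity)
    have hjr := hr j (Finset.mem_insert_self _ _)
    set M : ℝ := ∑ z ∈ S', ((g₁ z).norm : ℝ) with hM
    have hM0 : 0 ≤ M := Finset.sum_nonneg fun _ _ => by positivity
    set δ := min (ε / 2) (ε / (2 * (M + 1))) with hδ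
    have hδ0 : 0 < δ := lt_min (by positivity) (by positivity)
    have hδ1 : δ ≤ ε / 2 := min_le_left _ _
    have hδ2 : M * δ ≤ ε / 2 := by
      have h1 : δ ≤ ε / (2 * (M + 1)) := min_le_right _ _
      rw [le_div_iff₀ (by positivity)] at h1
      nlinarith
    obtain ⟨π', h, hS', hC', hfix, hu, hv⟩ := one_letter hst e he a u hau j hjr π₁ h1.std h1.cyc
      δ hδ0
    have hju : j ≠ e u := fun h => hjr ⟨u, h.symm⟩
    have hj1 : π₁ (FreeGroup.of j) = π (FreeGroup.of j) := h1.fix j hj hju
    refine ⟨π', fun z => if z = j then h else g₁ z, hS', hC', ?_, ?_, ?_⟩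
    · intro z hz
      by_cases hzj : z = j
      · subst hzj
        rw [if_pos rfl, ← hj1]
        exact hv.le.trans (hδ1.trans (by linarith))
      · rw [if_neg hzj]
        have hz' : z ∈ S' := Finset.mem_of_mem_insert_of_ne hz hzj
        have h2 := h1.app z hz'
        have h3 := hW ι G (π'.comp (FreeGroup.map e)) (π₁.comp (FreeGroup.map e)) δ
          (fun w g => hS'.comm _ g) (fun w g => h1.std.comm _ g) (by
            intro i
            simp only [MonoidHom.comp_apply, FreeGroup.map.of]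
            by_cases hi : i = u
            · subst hi; exact hu.le
            · rw [hfix (e i) (fun h => hjr ⟨i, h⟩) (fun h => hi (he h)), sub_self]
              simpa using hδ0.le) (g₁ z)
        simp only [MonoidHom.comp_apply] at h3
        have h4 : ((g₁ z).norm : ℝ) ≤ M :=
          Finset.single_le_sum (f := fun z => ((g₁ z).norm : ℝ)) (fun _ _ => by positivity) hz'
        have h5 : ((g₁ z).norm : ℝ) * δ ≤ ε / 2 := (mul_le_mul_of_nonneg_right h4 hδ0.le).trans hδ2
        have h6 : (π' (FreeGroup.map e (g₁ z)) : Op G) - (π (FreeGroup.of z) : Op G) =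
            ((π' (FreeGroup.map e (g₁ z)) : Op G) - (π₁ (FreeGroup.map e (g₁ z)) : Op G)) +
            ((π₁ (FreeGroup.map e (g₁ z)) : Op G) - (π (FreeGroup.of z) : Op G)) := by abel
        rw [h6, ContinuousLinearMap.add_apply]
        refine (norm_add_le _ _).trans ?_
        linarith
    · intro z hz hzu
      rw [Finset.mem_insert, not_or] at hz
      rw [hfix z hz.1 hzu, h1.fix z hz.2 hzu]
    · have h6 : (π' (FreeGroup.of (e u)) : Op G) - (π (FreeGroup.of (e u)) : Op G) =
            ((π' (FreeGroup.of (e u)) : Op G) - (π₁ (FreeGroup.of (e u)) : Op G)) +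
            ((π₁ (FreeGroup.of (e u)) : Op G) - (π (FreeGroup.of (e u)) : Op G)) := by abel
      rw [h6, ContinuousLinearMap.add_apply]
      refine (norm_add_le _ _).trans ?_
      have := h1.mov
      linarith

end Pool.Agent.H414R3.FI
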