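import Mathlib
import Pool.Agent.H414R3.FI.Dens

/-! The limit construction for an arbitrary set of letters `κ` and a smaller set `ι`. -/

namespace Pool.Agent.H414R3.FI

open Pool.Agent.H581R.FF
open Pool.Agent.H581R.FF.TLIM
open Pool.Agent.H667R2.FG (Ell permOp lam rho delta LG EltG tau)
open scoped ComplexConjugate
open Filter Topology

/-- the endomorphism which kills all letters outside `T` -/
def kill {κ : Type} [DecidableEq κ] (T : Finset κ) : FreeGroup κ →* FreeGroup κ :=
  FreeGroup.lift fun z => if z ∈ T then FreeGroup.of z else 1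

theorem kill_of {κ : Type} [DecidableEq κ] (T : Finset κ) (z : κ) :
    kill T (FreeGroup.of z) = if z ∈ T then FreeGroup.of z else 1 := by
  simp [kill]

theorem exists_letters {κ : Type} [DecidableEq κ] (w : FreeGroup κ) :
    ∃ T0 : Finset κ, ∀ T : Finset κ, T0 ⊆ T → kill T w = w := by
  induction w using FreeGroup.induction_on with
  | C1 => exact ⟨∅, fun T _ => map_one _⟩
  | of z =>
    refine ⟨{z}, fun T hT => ?_⟩
    have hz : z ∈ T := hT (Finset.mem_singleton_self z)
    show kill T (FreeGroup.of z) = FreeGroup.of z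
    rw [kill_of, if_pos hz]
  | inv_of z ih =>
    obtain ⟨T0, h⟩ := ih
    exact ⟨T0, fun T hT => by rw [map_inv, h T hT]⟩
  | mul x y hx hy =>
    obtain ⟨T1, h1⟩ := hx
    obtain ⟨T2, h2⟩ := hy
    refine ⟨T1 ∪ T2, fun T hT => ?_⟩
    rw [map_mul, h1 T (Finset.union_subset_left hT), h2 T (Finset.union_subset_right hT)]

theorem exists_support {κ : Type} [DecidableEq κ] (f : GR κ) :
    ∃ T0 : Finset κ, ∀ T : Finset κ, T0 ⊆ T → ∀ (G : Type) [Group G]
      (π : FreeGroup κ →* unitary (Op G)), ev (π.comp (kill T)) f = ev π f := by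
  induction f using MonoidAlgebra.induction_linear with
  | zero => exact ⟨∅, fun T _ G _ π => by rw [map_zero, map_zero]⟩
  | add f g hf hg =>
    obtain ⟨T1, h1⟩ := hf
    obtain ⟨T2, h2⟩ := hg
    refine ⟨T1 ∪ T2, fun T hT G _ π => ?_⟩
    rw [map_add, map_add, h1 T (Finset.union_subset_left hT) G π,
      h2 T (Finset.union_subset_right hT) G π]
  | single w c =>
    obtain ⟨T0, h⟩ := exists_letters w
    refine ⟨T0, fun T hT G _ π => ?_⟩
    unfold ev
    rw [MonoidAlgebra.lift_single, MonoidAlgebra.lift_single]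
    simp only [MonoidHom.comp_apply, h T hT]

/-- a state of the construction -/
def Sta (κ G : Type) [Group G] : Type :=
  {p : (FreeGroup κ →* unitary (Op G)) × ℝ // Std p.1 ∧ Cyc p.1 ∧ 0 < p.2}

theorem stp (hst : S_STAGE2) (hW : S_WDIST) {ι κ G : Type} [Group G] [DecidableEq κ]
    [DecidableEq ι] (e : ι → κ) (he : Function.Injective e) (a u : ι) (hau : a ≠ u)
    (s : Sta κ G) (ξ : Ell G) (η : ℝ) (hη : 0 < η) :
    ∃ (s' : Sta κ G) (f' : GR ι),
      (∀ z : ι, ‖((s'.1.1 (FreeGroup.of (e z)) : Op G) -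
        (s.1.1 (FreeGroup.of (e z)) : Op G)) (delta 1)‖ ≤ s.1.2) ∧
      s'.1.2 ≤ s.1.2 / 2 ∧ cost f' * s'.1.2 ≤ η ∧
      ‖ξ - ev (s'.1.1.comp (FreeGroup.map e)) f' (delta 1)‖ ≤ η := by
  classical
  obtain ⟨⟨π, e0⟩, hS, hC, he0⟩ := s
  simp only at hS hC he0 ⊢
  obtain ⟨f, hf⟩ := hC ξ (η / 2) (by linarith)
  have hcf := cost_nonneg f
  set ε := min e0 (η / (2 * (cost f + 1))) with hε
  have hε0 : 0 < ε := lt_min he0 (by positivity)
  have hε1 : ε ≤ e0 := min_le_left _ _
  have hε2 : cost f * ε ≤ η / 2 := by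
    have h1 : ε ≤ η / (2 * (cost f + 1)) := min_le_right _ _
    rw [le_div_iff₀ (by positivity)] at h1
    nlinarith
  obtain ⟨T, hT⟩ := exists_support f
  have hT' := hT T subset_rfl G π
  obtain ⟨π', g, hg⟩ := dens hst hW e he a u hau (T.filter fun z => z ∉ Set.range e)
    (fun z hz => (Finset.mem_filter.1 hz).2) π hS hC ε hε0
  let sg : FreeGroup κ →* FreeGroup ι :=
    FreeGroup.lift fun z => if z ∈ T then
      (if h : z ∈ Set.range e then FreeGroup.of h.choose else g z) else 1
  obtain ⟨f', hf'⟩ := exists_image sg (π'.comp (FreeGroup.map e)) f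
  have hcf' := cost_nonneg f'
  have hS' := hg.std
  have hC' := hg.cyc
  have hfixi : ∀ i : ι, i ≠ u → π' (FreeGroup.of (e i)) = π (FreeGroup.of (e i)) := by
    intro i hi
    refine hg.fix (e i) (fun h => (Finset.mem_filter.1 h).2 ⟨i, rfl⟩) fun h => hi (he h)
  have hi' : ∀ i : ι, ‖((π' (FreeGroup.of (e i)) : Op G) -
      (π (FreeGroup.of (e i)) : Op G)) (delta 1)‖ ≤ ε := by
    intro i
    by_cases hi : i = u
    · subst hi; exact hg.mov
    · rw [hfixi i hi, sub_self]; simpa using hε0.le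
  have hsw : ∀ (x y : Op G), ‖(x - y) (delta 1)‖ = ‖(y - x) (delta 1)‖ := by
    intro x y
    rw [← neg_sub, _root_.neg_apply, norm_neg]
  refine ⟨⟨(π', min (e0 / 2) (η / (cost f' + 1))), hS', hC', lt_min (by linarith)
    (by positivity)⟩, f', ?_, ?_, ?_, ?_⟩
  · intro z
    exact (hi' z).trans hε1
  · exact min_le_left _ _
  · show cost f' * min (e0 / 2) (η / (cost f' + 1)) ≤ η
    have h1 : min (e0 / 2) (η / (cost f' + 1)) ≤ η / (cost f' + 1) := min_le_right _ _
    have h2 : 0 < min (e0 / 2) (η / (cost f' + 1)) := lt_min (by linarith) (by positivity)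
    rw [le_div_iff₀ (by positivity)] at h1
    nlinarith
  · show ‖ξ - ev (π'.comp (FreeGroup.map e)) f' (delta 1)‖ ≤ η
    rw [hf']
    have hd : ‖ev π f (delta 1) - ev ((π'.comp (FreeGroup.map e)).comp sg) f (delta 1)‖ ≤
        cost f * ε := by
      have hc1 : ∀ (w : FreeGroup κ) (g : G), ((π.comp (kill T)) w : Op G) * rho g =
          rho g * ((π.comp (kill T)) w : Op G) := fun w g => hS.comm (kill T w) g
      have hc2 : ∀ (w : FreeGroup κ) (g : G),
          (((π'.comp (FreeGroup.map e)).comp sg) w : Op G) * rho g =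
          rho g * (((π'.comp (FreeGroup.map e)).comp sg) w : Op G) :=
        fun w g => hS'.comm (FreeGroup.map e (sg w)) g
      have hdd := dist_ev hW (π.comp (kill T)) ((π'.comp (FreeGroup.map e)).comp sg) ε hc1 hc2
        ?_ f
      · rw [hT'] at hdd
        exact hdd
      intro z
      by_cases hz : z ∈ T
      · by_cases hr : z ∈ Set.range e
        · have e1 : ((π'.comp (FreeGroup.map e)).comp sg) (FreeGroup.of z) =
              π' (FreeGroup.of z) := by
            simp only [sg, MonoidHom.comp_apply, FreeGroup.lift_apply_of, if_pos hz, dif_pos hr,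
              FreeGroup.map.of, hr.choose_spec]
          have e2 : (π.comp (kill T)) (FreeGroup.of z) = π (FreeGroup.of z) := by
            rw [MonoidHom.comp_apply, kill_of, if_pos hz]
          rw [e1, e2, hsw]
          obtain ⟨i, rfl⟩ := hr
          exact hi' i
        · have e1 : ((π'.comp (FreeGroup.map e)).comp sg) (FreeGroup.of z) =
              π' (FreeGroup.map e (g z)) := by
            simp only [sg, MonoidHom.comp_apply, FreeGroup.lift_apply_of, if_pos hz, dif_neg hr]
          have e2 : (π.comp (kill T)) (FreeGroup.of z) = π (FreeGroup.of z) := by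
            rw [MonoidHom.comp_apply, kill_of, if_pos hz]
          rw [e1, e2, hsw]
          exact hg.app z (Finset.mem_filter.2 ⟨hz, hr⟩)
      · have e1 : ((π'.comp (FreeGroup.map e)).comp sg) (FreeGroup.of z) = 1 := by
          simp only [sg, MonoidHom.comp_apply, FreeGroup.lift_apply_of, if_neg hz, map_one]
        have e2 : (π.comp (kill T)) (FreeGroup.of z) = 1 := by
          rw [MonoidHom.comp_apply, kill_of, if_neg hz, map_one]
        rw [e1, e2, sub_self]
        simpa using hε0.le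
    calc ‖ξ - ev ((π'.comp (FreeGroup.map e)).comp sg) f (delta 1)‖
        = ‖(ξ - ev π f (delta 1)) +
          (ev π f (delta 1) - ev ((π'.comp (FreeGroup.map e)).comp sg) f (delta 1))‖ := by
          congr 1; abel
      _ ≤ ‖ξ - ev π f (delta 1)‖ +
          ‖ev π f (delta 1) - ev ((π'.comp (FreeGroup.map e)).comp sg) f (delta 1)‖ :=
          norm_add_le _ _
      _ ≤ η / 2 + η / 2 := add_le_add hf.le (hd.trans hε2)
      _ = η := by ring

theorem lim' (hst : S_STAGE2) (hSL : S_SLIM) (hW : S_WDIST) {ι κ G : Type} [Group G] [Countable G]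
    (e : ι → κ) (he : Function.Injective e) (a u : ι) (hau : a ≠ u)
    (h0 : ∃ π : FreeGroup κ →* unitary (Op G), Std π ∧ Cyc π) :
    ∃ σ : FreeGroup ι →* unitary (Op G), Std σ ∧ Cyc σ := by
  classical
  obtain ⟨π0, hS0, hC0⟩ := h0
  obtain ⟨en, hen⟩ := exists_surjective_nat G
  choose nx ff h1 h2 h3 h4 using fun (s : Sta κ G) (ξ : Ell G) (n : ℕ) =>
    stp hst hW e he a u hau s ξ ((1 / 2 : ℝ) ^ n) (by positivity)
  let ξ : ℕ → Ell G := fun n => delta (en n.unpair.1)
  let s : ℕ → Sta κ G := fun n => Nat.rec ⟨(π0, 1), hS0, hC0, one_pos⟩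
    (fun n s => nx s (ξ n) n) n
  have hs : ∀ n, s (n + 1) = nx (s n) (ξ n) n := fun n => rfl
  let F : ℕ → GR ι := fun n => ff (s n) (ξ n) n
  have hpos : ∀ n, 0 < (s n).1.2 := fun n => (s n).2.2.2
  have g1 : ∀ n (z : ι), ‖(((s (n + 1)).1.1 (FreeGroup.of (e z)) : Op G) -
        ((s n).1.1 (FreeGroup.of (e z)) : Op G)) (delta 1)‖ ≤ (s n).1.2 :=
    fun n z => h1 (s n) (ξ n) n z
  have g2 : ∀ n, (s (n + 1)).1.2 ≤ (s n).1.2 / 2 := fun n => h2 (s n) (ξ n) n
  have g3 : ∀ n, cost (F n) * (s (n + 1)).1.2 ≤ (1 / 2 : ℝ) ^ n := fun n => h3 (s n) (ξ n) n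
  have g4 : ∀ n, ‖ξ n - ev ((s (n + 1)).1.1.comp (FreeGroup.map e)) (F n) (delta 1)‖ ≤
      (1 / 2 : ℝ) ^ n := fun n => h4 (s n) (ξ n) n
  have gk : ∀ n k, (s (n + k)).1.2 ≤ (s n).1.2 / 2 ^ k := by
    intro n k
    induction k with
    | zero => simp
    | succ k ih =>
      have := g2 (n + k)
      rw [← add_assoc]
      calc (s (n + k + 1)).1.2 ≤ (s (n + k)).1.2 / 2 := this
        _ ≤ (s n).1.2 / 2 ^ k / 2 := by linarith
        _ = (s n).1.2 / 2 ^ (k + 1) := by rw [pow_succ, div_div]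
  have hstd : ∀ n, Std ((s n).1.1.comp (FreeGroup.map e)) := fun n =>
    std_comp _ (FreeGroup.map_injective he) _ (s n).2.1
  have hdist : ∀ (z : ι) (n k : ℕ),
      dist ((((s (n + k)).1.1.comp (FreeGroup.map e)) (FreeGroup.of z) : Op G) (delta 1))
        ((((s (n + (k + 1))).1.1.comp (FreeGroup.map e)) (FreeGroup.of z) : Op G) (delta 1)) ≤
        (2 * (s n).1.2) / 2 / 2 ^ k := by
    intro z n k
    rw [dist_comm, dist_eq_norm]
    have e1 : ∀ π : FreeGroup κ →* unitary (Op G),
        (π.comp (FreeGroup.map e)) (FreeGroup.of z) = π (FreeGroup.of (e z)) := by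
      intro π; simp
    rw [e1, e1, ← _root_.sub_apply]
    have := (g1 (n + k) z).trans (gk n k)
    rw [mul_div_cancel_left₀ _ (by norm_num : (2:ℝ) ≠ 0)]
    exact this
  obtain ⟨σ, hσ, hlim⟩ := hSL ι G (fun n => (s n).1.1.comp (FreeGroup.map e)) hstd
    (by
      intro z
      refine cauchySeq_of_le_geometric_two (C := 2 * (s 0).1.2) fun n => ?_
      have := hdist z 0 n
      simpa using this)
  refine ⟨σ, hσ, cyc_of_delta σ ?_⟩
  have htail : ∀ (z : ι) (n : ℕ), ‖((((s n).1.1.comp (FreeGroup.map e)) (FreeGroup.of z) : Op G) -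
      (σ (FreeGroup.of z) : Op G)) (delta 1)‖ ≤ 2 * (s n).1.2 := by
    intro z n
    rw [_root_.sub_apply, ← dist_eq_norm]
    have ht : Tendsto (fun k => (((s (n + k)).1.1.comp (FreeGroup.map e)) (FreeGroup.of z) : Op G)
        (delta 1)) atTop (𝓝 ((σ (FreeGroup.of z) : Op G) (delta 1))) := by
      have h := hlim (FreeGroup.of z)
      have h' := h.comp (tendsto_add_atTop_nat n)
      refine h'.congr fun k => ?_
      simp only [Function.comp_apply]
      rw [add_comm k n]
    have := dist_le_of_le_geometric_two_of_tendsto₀ (C := 2 * (s n).1.2)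
      (f := fun k => (((s (n + k)).1.1.comp (FreeGroup.map e)) (FreeGroup.of z) : Op G) (delta 1))
      (fun k => hdist z n k) ht
    simpa using this
  intro g ε hε
  obtain ⟨k, hk⟩ := hen g
  obtain ⟨m, hm⟩ := exists_pow_lt_of_lt_one (show (0:ℝ) < ε / 3 by positivity)
    (show (1 / 2 : ℝ) < 1 by norm_num)
  set n := Nat.pair k m with hn
  have hmn : m ≤ n := Nat.right_le_pair k m
  have hξ : ξ n = delta g := by
    show delta (en n.unpair.1) = delta g
    rw [hn, Nat.unpair_pair, hk]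
  have hpow : (1 / 2 : ℝ) ^ n < ε / 3 :=
    lt_of_le_of_lt (pow_le_pow_of_le_one (by norm_num) (by norm_num) hmn) hm
  refine ⟨F n, ?_⟩
  have hA := g4 n
  rw [hξ] at hA
  have hB := dist_ev hW ((s (n + 1)).1.1.comp (FreeGroup.map e)) σ (2 * (s (n + 1)).1.2)
    (hstd (n + 1)).comm hσ.comm (fun z => htail z (n + 1)) (F n)
  have hB2 : cost (F n) * (2 * (s (n + 1)).1.2) ≤ 2 * (1 / 2 : ℝ) ^ n := by
    have := g3 n
    linarith
  calc ‖delta g - ev σ (F n) (delta 1)‖
      = ‖(delta g - ev ((s (n + 1)).1.1.comp (FreeGroup.map e)) (F n) (delta 1)) +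
        (ev ((s (n + 1)).1.1.comp (FreeGroup.map e)) (F n) (delta 1) -
          ev σ (F n) (delta 1))‖ := by
        congr 1; abel
    _ ≤ (1 / 2 : ℝ) ^ n + 2 * (1 / 2 : ℝ) ^ n :=
        (norm_add_le _ _).trans (add_le_add hA (hB.trans hB2))
    _ < ε := by linarith

end Pool.Agent.H414R3.FI
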