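import Mathlib
import Pool.Agent.H414R3.FI.Lim
import Pool.Agent.H581R.FF.TMAIN
import Pool.Agent.H581R.FF.TSPAT

/-! All countable nontrivial sets of letters give isomorphic von Neumann algebras. -/

namespace Pool.Agent.H414R3.FI

open Pool.Agent.H581R.FF
open Pool.Agent.H581R.FF.TSPAT
open Pool.Agent.H667R2.FG (Ell permOp lam rho delta LG EltG tau)
open scoped ComplexConjugate InnerProductSpace

/-- a smaller set of at least two letters gives a free generating system of `L(F_κ)` -/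
theorem exists_system (hst : S_STAGE2) (hSL : S_SLIM) (hW : S_WDIST) (hinit : S_INIT)
    {ι κ : Type} [Countable κ] [Nontrivial ι] (e : ι → κ) (he : Function.Injective e) :
    ∃ σ : FreeGroup ι →* unitary (Op (FreeGroup κ)), Std σ ∧ Cyc σ := by
  obtain ⟨a, u, hau⟩ := exists_pair_ne ι
  have : Countable (FreeGroup κ) := TMAIN.countable_freeGroup κ
  exact lim' hst hSL hW e he a u hau (hinit κ)

/-- isomorphism of all `L(F_X)`, `X` countable with at least two elements -/
theorem iso_countable' (hst : S_STAGE2) (hSL : S_SLIM) (hW : S_WDIST) (hinit : S_INIT)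
    (hiso : S_ISO) (X Y : Type) [Countable X] [Countable Y] [Nontrivial X] [Nontrivial Y] :
    Nonempty (EltG (FreeGroup X) ≃⋆ₐ[ℂ] EltG (FreeGroup Y)) := by
  obtain ⟨σ, hσ, hc⟩ := exists_system hst hSL hW hinit (Sum.inl : X → X ⊕ Y) Sum.inl_injective
  obtain ⟨σ', hσ', hc'⟩ := exists_system hst hSL hW hinit (Sum.inr : Y → X ⊕ Y) Sum.inr_injective
  obtain ⟨e1⟩ := hiso X (FreeGroup (X ⊕ Y)) σ hσ hc
  obtain ⟨e2⟩ := hiso Y (FreeGroup (X ⊕ Y)) σ' hσ' hc'
  exact ⟨e1.trans e2.symm⟩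

/-- the unitary given by a cyclic system fixes the trace vector -/
theorem spat_strong {κ G : Type} [Group G] (σ : FreeGroup κ →* unitary (Op G)) (hs : Std σ)
    (hc : Cyc σ) :
    ∃ W : Ell (FreeGroup κ) ≃ₗᵢ[ℂ] Ell G, W (delta 1) = delta 1 ∧
      (∀ w, W.conjStarAlgEquiv (lam w) = (σ w : Op G)) ∧
      ∀ T : Op (FreeGroup κ), T ∈ LG (FreeGroup κ) ↔ W.conjStarAlgEquiv T ∈ LG G := by
  classical
  let W := (hb σ hs hc).repr
  refine ⟨W.symm, ?_, ?_, ?_⟩
  · have e1 : W (hb σ hs hc 1) = (delta 1 : Ell (FreeGroup κ)) := by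
      rw [delta_eq]; exact (hb σ hs hc).repr_self 1
    rw [← e1, LinearIsometryEquiv.symm_apply_apply, hb_apply, map_one]
    rfl
  · intro w
    have h1 := phi_lam σ hs hc w
    have e3 : W.symm.conjStarAlgEquiv (lam w) = W.conjStarAlgEquiv.symm (lam w) := rfl
    rw [e3, ← h1]
    exact W.conjStarAlgEquiv.symm_apply_apply _
  intro T
  let φ : Op G ≃* Op (FreeGroup κ) :=
    { toFun := W.conjStarAlgEquiv
      invFun := W.conjStarAlgEquiv.symm
      left_inv := W.conjStarAlgEquiv.symm_apply_apply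
      right_inv := W.conjStarAlgEquiv.apply_symm_apply
      map_mul' := fun x y => map_mul W.conjStarAlgEquiv x y }
  have h0 : φ '' (Set.range fun w => (σ w : Op G)) = Set.range (lam (G := FreeGroup κ)) := by
    rw [← Set.range_comp]
    congr 1
    funext g
    exact phi_lam σ hs hc g
  have h1 := image_cent φ _ _ h0
  have h2 := mem_cent φ _ _ h1 (W.conjStarAlgEquiv.symm T)
  rw [cent_eq σ hs hc] at h2
  have e1 : φ (W.conjStarAlgEquiv.symm T) = T := W.conjStarAlgEquiv.apply_symm_apply T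
  rw [e1] at h2
  have e3 : W.symm.conjStarAlgEquiv T = W.conjStarAlgEquiv.symm T := rfl
  have e4 : T ∈ LG (FreeGroup κ) ↔
      T ∈ ((LG (FreeGroup κ)).toStarSubalgebra : Set (Op (FreeGroup κ))) := Iff.rfl
  have e5 : W.symm.conjStarAlgEquiv T ∈ LG G ↔
      W.symm.conjStarAlgEquiv T ∈ ((LG G).toStarSubalgebra : Set (Op G)) := Iff.rfl
  rw [e4, e5, LG_coe, LG_coe, e3]
  exact h2

/-- a unitary fixing the trace vector preserves the trace -/
theorem tau_conj {Γ G : Type} [Group Γ] [Group G] (W : Ell Γ ≃ₗᵢ[ℂ] Ell G)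
    (hW : W (delta 1) = delta 1) (T : Op Γ) : tau (W.conjStarAlgEquiv T) = tau T := by
  have hW' : W.symm (delta 1) = delta 1 := by rw [← hW, LinearIsometryEquiv.symm_apply_apply]
  unfold tau
  rw [← Pool.Agent.H667R2.FG.TL2.inner_delta, ← Pool.Agent.H667R2.FG.TL2.inner_delta,
    LinearIsometryEquiv.conjStarAlgEquiv_apply_apply, hW', ← hW, LinearIsometryEquiv.inner_map_map]

/-- spatial form of the isomorphism theorem -/
theorem spatial_countable' (hst : S_STAGE2) (hSL : S_SLIM) (hW : S_WDIST) (hinit : S_INIT)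
    (X Y : Type) [Countable X] [Countable Y] [Nontrivial X] [Nontrivial Y] :
    ∃ W : Ell (FreeGroup X) ≃ₗᵢ[ℂ] Ell (FreeGroup Y), W (delta 1) = delta 1 ∧
      ∀ T : Op (FreeGroup X), T ∈ LG (FreeGroup X) ↔ W.conjStarAlgEquiv T ∈ LG (FreeGroup Y) := by
  obtain ⟨σ, hσ, hc⟩ := exists_system hst hSL hW hinit (Sum.inl : X → X ⊕ Y) Sum.inl_injective
  obtain ⟨σ', hσ', hc'⟩ := exists_system hst hSL hW hinit (Sum.inr : Y → X ⊕ Y) Sum.inr_injective
  obtain ⟨W1, h1, -, h1'⟩ := spat_strong σ hσ hc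
  obtain ⟨W2, h2, -, h2'⟩ := spat_strong σ' hσ' hc'
  refine ⟨W1.trans W2.symm, ?_, fun T => ?_⟩
  · rw [LinearIsometryEquiv.trans_apply, h1, ← h2, LinearIsometryEquiv.symm_apply_apply]
  · rw [h1' T, h2']
    have : W2.conjStarAlgEquiv ((W1.trans W2.symm).conjStarAlgEquiv T) =
        W1.conjStarAlgEquiv T := by
      rw [LinearIsometryEquiv.conjStarAlgEquiv_trans]
      exact W2.conjStarAlgEquiv.apply_symm_apply _
    rw [this]

end Pool.Agent.H414R3.FI
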