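import Mathlib
import Pool.Agent.H414R3.FI.Fin
import Pool.Agent.H581R.FF.TNSTEP
import Pool.Agent.H581R.FF.TISOb
import Pool.Agent.H581R.FF.TSTAGE2
import Pool.Agent.H722.FG.CW
import Pool.Agent.H581R.FF.TAD
import Pool.Agent.H581R.FF.TBACK
import Pool.Agent.H581R.FF.TBND
import Pool.Agent.H581R.FF.TDER
import Pool.Agent.H581R.FF.TEV1
import Pool.Agent.H581R.FF.TEV2
import Pool.Agent.H581R.FF.TEVST
import Pool.Agent.H581R.FF.TFCYC
import Pool.Agent.H581R.FF.TFFIX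
import Pool.Agent.H581R.FF.TFIX0
import Pool.Agent.H581R.FF.TFLOW
import Pool.Agent.H581R.FF.TFORM
import Pool.Agent.H581R.FF.TFOU
import Pool.Agent.H581R.FF.TFSTD
import Pool.Agent.H581R.FF.TINIT
import Pool.Agent.H581R.FF.TL1
import Pool.Agent.H581R.FF.TL2
import Pool.Agent.H581R.FF.TSLIM
import Pool.Agent.H581R.FF.TSTAR
import Pool.Agent.H581R.FF.TTAY
import Pool.Agent.H581R.FF.TTR
import Pool.Agent.H581R.FF.TWDIST

/-! The free group factors `L(F_X)`, `X` countable with at least two elements, are all isomorphic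
(no hypotheses). -/

namespace Pool.Agent.H414R3.FI

open Pool.Agent.H581R.FF
open Pool.Agent.H667R2.FG (Ell permOp lam rho delta LG EltG tau)

theorem nstep : S_NSTEP :=
  t_NSTEP TL1.t_L1 TEV1.t_EV1 TEV2.t_EV2 TEVST.t_EVST
    (TFLOW.t_FLOW TL1.t_L1 TEV1.t_EV1 TEVST.t_EVST) (TTAY.t_TAY TL1.t_L1 TEV1.t_EV1)
    (TBACK.t_BACK TL1.t_L1 TEV1.t_EV1) (TFSTD.t_FSTD TEV2.t_EV2) TFCYC.t_FCYC TFFIX.t_FFIX
    TL2.t_L2

theorem stage2 : S_STAGE2 :=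
  TSTAGE2.t_STAGE2 TDER.t_DER (t_BND TL1.t_L1) TTR.t_TR TSTAR.t_STAR TFORM.t_FORM
    TFIX0.t_FIX0 TAD.t_AD TL2.t_L2 Pool.Agent.H722.FG.t_CW TFOU.t_FOU nstep

/-- free generating systems: `L(F_κ)` is generated by a free family of Haar unitaries indexed by
`ι`, for `2 ≤ |ι| ≤ |κ| ≤ ℵ₀` -/
theorem system {ι κ : Type} [Countable κ] [Nontrivial ι] (e : ι → κ)
    (he : Function.Injective e) :
    ∃ σ : FreeGroup ι →* unitary (Op (FreeGroup κ)), Std σ ∧ Cyc σ :=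
  exists_system stage2 TSLIM.t_SLIM TWDIST.t_WDIST TINIT.t_INIT e he

theorem iso_countable (X Y : Type) [Countable X] [Countable Y] [Nontrivial X] [Nontrivial Y] :
    Nonempty (EltG (FreeGroup X) ≃⋆ₐ[ℂ] EltG (FreeGroup Y)) :=
  iso_countable' stage2 TSLIM.t_SLIM TWDIST.t_WDIST TINIT.t_INIT TISOb.t_ISO X Y

/-- a unitary `ℓ²(F_X) → ℓ²(F_Y)` with `W δ_1 = δ_1` and `W L(F_X) W⁻¹ = L(F_Y)` -/
theorem spatial_countable (X Y : Type) [Countable X] [Countable Y] [Nontrivial X]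
    [Nontrivial Y] :
    ∃ W : Ell (FreeGroup X) ≃ₗᵢ[ℂ] Ell (FreeGroup Y), W (delta 1) = delta 1 ∧
      ∀ T : Op (FreeGroup X), T ∈ LG (FreeGroup X) ↔ W.conjStarAlgEquiv T ∈ LG (FreeGroup Y) :=
  spatial_countable' stage2 TSLIM.t_SLIM TWDIST.t_WDIST TINIT.t_INIT X Y

end Pool.Agent.H414R3.FI
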