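import Mathlib
import Pool.Agent.H414R3.FI.All
import Pool.Agent.H581R.FF.Abst

/-! The isomorphism theorem on abstract Hilbert spaces with a basis indexed by the free group. -/

namespace Pool.Agent.H414R3.FI

open Pool.Agent.H581R.FF
open Pool.Agent.H667R2.FG (Ell lam LG delta)

/-- For countable sets `X`, `Y` with at least two elements and Hilbert spaces `H`, `K` with
orthonormal bases `δ`, `δ'` indexed by the free groups on `X` and `Y` there is a unitary
`W : H → K` with `W δ_1 = δ'_1` and `W L(F_X) W⁻¹ = L(F_Y)`. -/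
theorem main_abs (X Y : Type) [Countable X] [Countable Y] [Nontrivial X] [Nontrivial Y]
    {H K : Type} [NormedAddCommGroup H] [InnerProductSpace ℂ H] [CompleteSpace H]
    [NormedAddCommGroup K] [InnerProductSpace ℂ K] [CompleteSpace K]
    (δ : HilbertBasis (FreeGroup X) ℂ H) (δ' : HilbertBasis (FreeGroup Y) ℂ K) :
    ∃ W : H ≃ₗᵢ[ℂ] K, W (δ 1) = δ' 1 ∧
      ∀ T : H →L[ℂ] H, T ∈ Abst.LL δ ↔ W.conjStarAlgEquiv T ∈ Abst.LL δ' := by
  obtain ⟨W, h1, hW⟩ := spatial_countable X Y
  refine ⟨(δ.repr.trans W).trans δ'.repr.symm, ?_, fun T => ?_⟩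
  · rw [LinearIsometryEquiv.trans_apply, LinearIsometryEquiv.trans_apply, Abst.repr_delta, h1,
      ← Abst.repr_delta δ' 1, LinearIsometryEquiv.symm_apply_apply]
  rw [Abst.LL_iff, Abst.LL_iff, hW]
  have e : δ'.repr.conjStarAlgEquiv
      (((δ.repr.trans W).trans δ'.repr.symm).conjStarAlgEquiv T) =
      W.conjStarAlgEquiv (δ.repr.conjStarAlgEquiv T) := by
    ext1 x
    simp
  rw [e]

end Pool.Agent.H414R3.FI
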