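import Mathlib

/-! Continuous logic for tracial von Neumann algebras: terms, formulas and their values. -/

namespace Pool.Agent.H414R3.FI

/-- The structures of the language of tracial von Neumann algebras: a set with a unit, addition,
multiplication, adjoint, multiplication by complex scalars, operator norm and trace. -/
structure Str : Type 1 where
  carrier : Type
  one : carrier
  add : carrier → carrier → carrier
  mul : carrier → carrier → carrier
  adj : carrier → carrier
  scal : ℂ → carrier → carrier
  nrm : carrier → ℝ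
  tr : carrier → ℂ

section
variable {H : Type} [NormedAddCommGroup H] [InnerProductSpace ℂ H] [CompleteSpace H]
  (M : VonNeumannAlgebra H)

theorem mem_one : (1 : H →L[ℂ] H) ∈ M := M.one_mem'

theorem mem_add {x y : H →L[ℂ] H} (hx : x ∈ M) (hy : y ∈ M) : x + y ∈ M := M.add_mem' hx hy

theorem mem_mul {x y : H →L[ℂ] H} (hx : x ∈ M) (hy : y ∈ M) : x * y ∈ M := M.mul_mem' hx hy

theorem mem_adj {x : H →L[ℂ] H} (hx : x ∈ M) : star x ∈ M :=
  M.star_mem' hx

theorem mem_scal {x : H →L[ℂ] H} (c : ℂ) (hx : x ∈ M) : c • x ∈ M :=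
  M.toStarSubalgebra.smul_mem hx c

/-- The von Neumann algebra `M` on `H` with the trace `τ(x) = ⟨x ξ, ξ⟩` as a structure (the inner
product `inner ℂ` is linear in the second variable). -/
noncomputable def vnStr (ξ : H) : Str where
  carrier := {x : H →L[ℂ] H // x ∈ M}
  one := ⟨1, mem_one M⟩
  add x y := ⟨x.1 + y.1, mem_add M x.2 y.2⟩
  mul x y := ⟨x.1 * y.1, mem_mul M x.2 y.2⟩
  adj x := ⟨star x.1, mem_adj M x.2⟩
  scal c x := ⟨c • x.1, mem_scal M c x.2⟩
  nrm x := ‖x.1‖
  tr x := inner ℂ ξ (x.1 ξ)

end

/-- Terms: `*`-polynomials with complex coefficients in noncommuting variables from `V`. -/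
inductive Tm (V : Type) : Type
  | var (v : V) : Tm V
  | one : Tm V
  | add (s t : Tm V) : Tm V
  | mul (s t : Tm V) : Tm V
  | adj (s : Tm V) : Tm V
  | scal (c : ℂ) (s : Tm V) : Tm V

/-- The value in `M` of a term when the variable `v` has the value `x v`. -/
noncomputable def Tm.val {V : Type} (M : Str) (x : V → M.carrier) : Tm V → M.carrier
  | .var v => x v
  | .one => M.one
  | .add s t => M.add (s.val M x) (t.val M x)
  | .mul s t => M.mul (s.val M x) (t.val M x)
  | .adj s => M.adj (s.val M x)
  | .scal c s => M.scal c (s.val M x)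

/-- Formulas of the continuous logic of tracial von Neumann algebras with `n` free variables:
the real part of the trace of a term, the imaginary part of the trace of a term, the 2-norm of a
term (the distance of `s` and `t` is the 2-norm of `s - t`), continuous functions of finitely
many formulas, and the supremum and the infimum over a variable which ranges over the operator
norm ball of radius `r`. -/
inductive Fm : ℕ → Type
  | re {n : ℕ} (t : Tm (Fin n)) : Fm n
  | im {n : ℕ} (t : Tm (Fin n)) : Fm n
  | nrm {n : ℕ} (t : Tm (Fin n)) : Fm n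
  | conn {n k : ℕ} (u : C(Fin k → ℝ, ℝ)) (φ : Fin k → Fm n) : Fm n
  | sup {n : ℕ} (r : ℕ) (φ : Fm (n + 1)) : Fm n
  | inf {n : ℕ} (r : ℕ) (φ : Fm (n + 1)) : Fm n

/-- The operator norm ball of radius `r`. -/
def Ball (M : Str) (r : ℕ) : Type := {y : M.carrier // M.nrm y ≤ r}

/-- The 2-norm `τ(x* x)^{1/2}`. -/
noncomputable def norm2 (M : Str) (x : M.carrier) : ℝ :=
  Real.sqrt (M.tr (M.mul (M.adj x) x)).re

/-- The value of a formula in `M` when its free variables have the values `x 0, x 1, …`. -/
noncomputable def Fm.val (M : Str) : {n : ℕ} → Fm n → (Fin n → M.carrier) → ℝ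
  | _, .re t, x => (M.tr (t.val M x)).re
  | _, .im t, x => (M.tr (t.val M x)).im
  | _, .nrm t, x => norm2 M (t.val M x)
  | _, .conn u φ, x => u fun i => (φ i).val M x
  | _, .sup r φ, x => ⨆ y : Ball M r, φ.val M (Fin.cons y.1 x)
  | _, .inf r φ, x => ⨅ y : Ball M r, φ.val M (Fin.cons y.1 x)

/-- Elementary equivalence: every sentence has the same value. -/
def ElemEq (M N : Str) : Prop := ∀ φ : Fm 0, φ.val M Fin.elim0 = φ.val N Fin.elim0

/-- Isomorphisms of structures. -/
structure Iso (M N : Str) extends M.carrier ≃ N.carrier where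
  map_one : toFun M.one = N.one
  map_add : ∀ x y, toFun (M.add x y) = N.add (toFun x) (toFun y)
  map_mul : ∀ x y, toFun (M.mul x y) = N.mul (toFun x) (toFun y)
  map_adj : ∀ x, toFun (M.adj x) = N.adj (toFun x)
  map_scal : ∀ c x, toFun (M.scal c x) = N.scal c (toFun x)
  map_nrm : ∀ x, N.nrm (toFun x) = M.nrm x
  map_tr : ∀ x, N.tr (toFun x) = M.tr x

section

variable {M N : Str} (e : Iso M N)

theorem Tm.val_iso {V : Type} (t : Tm V) (x : V → M.carrier) :
    t.val N (fun v => e.toFun (x v)) = e.toFun (t.val M x) := by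
  induction t with
  | var v => rfl
  | one => exact e.map_one.symm
  | add s t hs ht => simp only [Tm.val, hs, ht, e.map_add]
  | mul s t hs ht => simp only [Tm.val, hs, ht, e.map_mul]
  | adj s hs => simp only [Tm.val, hs, e.map_adj]
  | scal c s hs => simp only [Tm.val, hs, e.map_scal]

/-- the bijection of the balls given by an isomorphism -/
def ballEquiv (r : ℕ) : Ball M r ≃ Ball N r where
  toFun y := ⟨e.toFun y.1, by rw [e.map_nrm]; exact y.2⟩
  invFun y := ⟨e.toEquiv.symm y.1, by
    rw [← e.map_nrm]
    show N.nrm (e.toEquiv (e.toEquiv.symm y.1)) ≤ r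
    rw [Equiv.apply_symm_apply]; exact y.2⟩
  left_inv y := Subtype.ext (e.toEquiv.symm_apply_apply y.1)
  right_inv y := Subtype.ext (e.toEquiv.apply_symm_apply y.1)

theorem cons_iso {n : ℕ} (y : M.carrier) (x : Fin n → M.carrier) :
    (Fin.cons (e.toFun y) (fun i => e.toFun (x i)) : Fin (n + 1) → N.carrier) =
      fun i => e.toFun ((Fin.cons y x : Fin (n + 1) → M.carrier) i) := by
  funext i
  refine Fin.cases ?_ (fun j => ?_) i
  · simp
  · simp

theorem Fm.val_iso {n : ℕ} (φ : Fm n) (x : Fin n → M.carrier) :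
    φ.val N (fun i => e.toFun (x i)) = φ.val M x := by
  induction φ with
  | re t => simp only [Fm.val, Tm.val_iso, e.map_tr]
  | im t => simp only [Fm.val, Tm.val_iso, e.map_tr]
  | nrm t =>
    simp only [Fm.val, Tm.val_iso, norm2]
    rw [← e.map_adj, ← e.map_mul, e.map_tr]
  | conn u φ ih => simp only [Fm.val, ih]
  | sup r φ ih =>
    simp only [Fm.val]
    rw [← (ballEquiv e r).iSup_comp]
    congr 1
    funext y
    rw [← ih, ← cons_iso]
    rfl
  | inf r φ ih =>
    simp only [Fm.val]
    rw [← (ballEquiv e r).iInf_comp]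
    congr 1
    funext y
    rw [← ih, ← cons_iso]
    rfl

theorem elemEq_of_iso {M N : Str} (e : Iso M N) : ElemEq M N := by
  intro φ
  have h := Fm.val_iso e φ Fin.elim0
  rw [← h]
  congr 1
  funext i
  exact i.elim0

end

end Pool.Agent.H414R3.FI
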