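import Mathlib
import Pool.Agent.H414R3.FI.Logic

/-! The values of formulas are bounded on bounded sets, so that the suprema and infima in the
definition of `Fm.val` are suprema and infima of bounded nonempty sets. -/

namespace Pool.Agent.H414R3.FI

/-- the properties of the structures given by von Neumann algebras which are used here -/
structure Nice (M : Str) : Prop where
  nonneg : ∀ x, 0 ≤ M.nrm x
  one : M.nrm M.one ≤ 1
  add : ∀ x y, M.nrm (M.add x y) ≤ M.nrm x + M.nrm y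
  mul : ∀ x y, M.nrm (M.mul x y) ≤ M.nrm x * M.nrm y
  adj : ∀ x, M.nrm (M.adj x) ≤ M.nrm x
  scal : ∀ c x, M.nrm (M.scal c x) ≤ ‖c‖ * M.nrm x
  tr : ∀ x, ‖M.tr x‖ ≤ M.nrm x
  zero : ∃ x, M.nrm x = 0

theorem nice_vnStr {H : Type} [NormedAddCommGroup H] [InnerProductSpace ℂ H]
    [CompleteSpace H] (M : VonNeumannAlgebra H) (ξ : H) (hξ : ‖ξ‖ ≤ 1) : Nice (vnStr M ξ) where
  nonneg _ := norm_nonneg (E := H →L[ℂ] H) _
  one := ContinuousLinearMap.norm_id_le (𝕜 := ℂ) (E := H)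
  add _ _ := norm_add_le (E := H →L[ℂ] H) _ _
  mul _ _ := norm_mul_le (α := H →L[ℂ] H) _ _
  adj x := (norm_star (E := H →L[ℂ] H) x.1).le
  scal _ _ := (norm_smul (β := H →L[ℂ] H) _ _).le
  tr x := by
    show ‖inner ℂ ξ ((x.1 : H →L[ℂ] H) ξ)‖ ≤ ‖(x.1 : H →L[ℂ] H)‖
    refine (norm_inner_le_norm _ _).trans ?_
    have h1 := (x.1 : H →L[ℂ] H).le_opNorm ξ
    have h2 : ‖(x.1 : H →L[ℂ] H)‖ * ‖ξ‖ ≤ ‖(x.1 : H →L[ℂ] H)‖ * 1 :=
      mul_le_mul_of_nonneg_left hξ (norm_nonneg _)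
    nlinarith [norm_nonneg ((x.1 : H →L[ℂ] H) ξ), norm_nonneg ξ]
  zero := ⟨⟨0, M.zero_mem'⟩, norm_zero (E := H →L[ℂ] H)⟩

theorem ball_nonempty {M : Str} (hM : Nice M) (r : ℕ) : Nonempty (Ball M r) := by
  obtain ⟨x, hx⟩ := hM.zero
  exact ⟨⟨x, by rw [hx]; positivity⟩⟩

theorem Tm.bdd {V : Type} (t : Tm V) (R : ℝ) : ∃ C : ℝ, 0 ≤ C ∧
    ∀ (M : Str), Nice M → ∀ x : V → M.carrier, (∀ v, M.nrm (x v) ≤ R) →
      M.nrm (t.val M x) ≤ C := by
  induction t with
  | var v => exact ⟨|R|, abs_nonneg R, fun M hM x h => (h v).trans (le_abs_self R)⟩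
  | one => exact ⟨1, zero_le_one, fun M hM x h => hM.one⟩
  | add s t hs ht =>
    obtain ⟨C, hC, hs⟩ := hs
    obtain ⟨D, hD, ht⟩ := ht
    exact ⟨C + D, by positivity, fun M hM x h =>
      (hM.add _ _).trans (add_le_add (hs M hM x h) (ht M hM x h))⟩
  | mul s t hs ht =>
    obtain ⟨C, hC, hs⟩ := hs
    obtain ⟨D, hD, ht⟩ := ht
    exact ⟨C * D, by positivity, fun M hM x h =>
      (hM.mul _ _).trans (mul_le_mul (hs M hM x h) (ht M hM x h) (hM.nonneg _) hC)⟩
  | adj s hs =>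
    obtain ⟨C, hC, hs⟩ := hs
    exact ⟨C, hC, fun M hM x h => (hM.adj _).trans (hs M hM x h)⟩
  | scal c s hs =>
    obtain ⟨C, hC, hs⟩ := hs
    exact ⟨‖c‖ * C, by positivity, fun M hM x h =>
      (hM.scal c _).trans (mul_le_mul_of_nonneg_left (hs M hM x h) (norm_nonneg c))⟩

theorem Fm.bdd {n : ℕ} (φ : Fm n) : ∀ R : ℝ, ∃ C : ℝ, 0 ≤ C ∧
    ∀ (M : Str), Nice M → ∀ x : Fin n → M.carrier, (∀ v, M.nrm (x v) ≤ R) →
      |φ.val M x| ≤ C := by
  induction φ with
  | re t =>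
    intro R
    obtain ⟨C, hC, h⟩ := t.bdd R
    exact ⟨C, hC, fun M hM x hx =>
      (Complex.abs_re_le_norm _).trans ((hM.tr _).trans (h M hM x hx))⟩
  | im t =>
    intro R
    obtain ⟨C, hC, h⟩ := t.bdd R
    exact ⟨C, hC, fun M hM x hx =>
      (Complex.abs_im_le_norm _).trans ((hM.tr _).trans (h M hM x hx))⟩
  | nrm t =>
    intro R
    obtain ⟨C, hC, h⟩ := t.bdd R
    refine ⟨C, hC, fun M hM x hx => ?_⟩
    simp only [Fm.val, norm2]
    rw [abs_of_nonneg (Real.sqrt_nonneg _)]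
    have h0 := h M hM x hx
    refine Real.sqrt_le_iff.2 ⟨hC, ?_⟩
    refine (Complex.re_le_norm _).trans ((hM.tr _).trans ?_)
    refine (hM.mul _ _).trans ?_
    rw [sq]
    exact mul_le_mul ((hM.adj _).trans h0) h0 (hM.nonneg _) hC
  | @conn n k u φ ih =>
    intro R
    choose C hC h using fun i => ih i R
    have hK : IsCompact (Set.univ.pi fun i : Fin k => Set.Icc (-C i) (C i)) :=
      isCompact_univ_pi fun i => isCompact_Icc
    obtain ⟨D, hD⟩ := hK.exists_bound_of_continuousOn u.continuous.continuousOn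
    refine ⟨max D 0, le_max_right _ _, fun M hM x hx => ?_⟩
    simp only [Fm.val]
    refine (hD (fun i => (φ i).val M x) ?_).trans (le_max_left _ _)
    intro i _
    exact abs_le.1 (h i M hM x hx)
  | sup r φ ih =>
    intro R
    obtain ⟨C, hC, h⟩ := ih (max R r)
    refine ⟨C, hC, fun M hM x hx => ?_⟩
    simp only [Fm.val]
    have := ball_nonempty hM r
    have hb : ∀ y : Ball M r, |φ.val M (Fin.cons y.1 x)| ≤ C := by
      intro y
      refine h M hM _ fun i => ?_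
      refine Fin.cases ?_ (fun j => ?_) i
      · exact y.2.trans (le_max_right _ _)
      · exact (hx j).trans (le_max_left _ _)
    rw [abs_le]
    constructor
    · refine (abs_le.1 (hb (Classical.arbitrary _))).1.trans
        (le_ciSup (f := fun y : Ball M r => φ.val M (Fin.cons y.1 x)) ⟨C, ?_⟩ _)
      rintro _ ⟨y, rfl⟩
      exact (abs_le.1 (hb y)).2
    · exact ciSup_le fun y => (abs_le.1 (hb y)).2
  | inf r φ ih =>
    intro R
    obtain ⟨C, hC, h⟩ := ih (max R r)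
    refine ⟨C, hC, fun M hM x hx => ?_⟩
    simp only [Fm.val]
    have := ball_nonempty hM r
    have hb : ∀ y : Ball M r, |φ.val M (Fin.cons y.1 x)| ≤ C := by
      intro y
      refine h M hM _ fun i => ?_
      refine Fin.cases ?_ (fun j => ?_) i
      · exact y.2.trans (le_max_right _ _)
      · exact (hx j).trans (le_max_left _ _)
    rw [abs_le]
    constructor
    · exact le_ciInf fun y => (abs_le.1 (hb y)).1
    · refine (ciInf_le (f := fun y : Ball M r => φ.val M (Fin.cons y.1 x)) ⟨-C, ?_⟩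
        (Classical.arbitrary _)).trans (abs_le.1 (hb (Classical.arbitrary _))).2
      rintro _ ⟨y, rfl⟩
      exact (abs_le.1 (hb y)).1

end Pool.Agent.H414R3.FI
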