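import Mathlib
import Pool.Agent.H414R3.FI.Logic

/-! A unitary which maps the trace vector to the trace vector and conjugates the von Neumann
algebras gives an isomorphism of structures. -/

namespace Pool.Agent.H414R3.FI

variable {H K : Type} [NormedAddCommGroup H] [InnerProductSpace ℂ H] [CompleteSpace H]
  [NormedAddCommGroup K] [InnerProductSpace ℂ K] [CompleteSpace K]

theorem norm_conj (W : H ≃ₗᵢ[ℂ] K) (T : H →L[ℂ] H) : ‖W.conjStarAlgEquiv T‖ = ‖T‖ := by
  apply le_antisymm
  · refine ContinuousLinearMap.opNorm_le_bound _ (norm_nonneg _) fun ξ => ?_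
    rw [LinearIsometryEquiv.conjStarAlgEquiv_apply_apply, LinearIsometryEquiv.norm_map]
    refine (T.le_opNorm _).trans ?_
    rw [LinearIsometryEquiv.norm_map]
  · refine ContinuousLinearMap.opNorm_le_bound _ (norm_nonneg _) fun ξ => ?_
    have h : W.conjStarAlgEquiv T (W ξ) = W (T ξ) := by
      rw [LinearIsometryEquiv.conjStarAlgEquiv_apply_apply, LinearIsometryEquiv.symm_apply_apply]
    have h2 := (W.conjStarAlgEquiv T).le_opNorm (W ξ)
    rwa [h, LinearIsometryEquiv.norm_map, LinearIsometryEquiv.norm_map] at h2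

theorem inner_conj (W : H ≃ₗᵢ[ℂ] K) (ξ : H) (T : H →L[ℂ] H) :
    inner ℂ (W ξ) ((W.conjStarAlgEquiv T) (W ξ)) = inner ℂ ξ (T ξ) := by
  rw [LinearIsometryEquiv.conjStarAlgEquiv_apply_apply, LinearIsometryEquiv.symm_apply_apply,
    LinearIsometryEquiv.inner_map_map]

/-- the isomorphism of the structures given by a unitary -/
noncomputable def isoOf (W : H ≃ₗᵢ[ℂ] K) (M : VonNeumannAlgebra H) (N : VonNeumannAlgebra K)
    (ξ : H) (h : ∀ T : H →L[ℂ] H, T ∈ M ↔ W.conjStarAlgEquiv T ∈ N) :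
    Iso (vnStr M ξ) (vnStr N (W ξ)) where
  toFun x := ⟨W.conjStarAlgEquiv x.1, (h _).1 x.2⟩
  invFun y := ⟨W.conjStarAlgEquiv.symm y.1, (h _).2 (by
    rw [StarAlgEquiv.apply_symm_apply]; exact y.2)⟩
  left_inv x := Subtype.ext (W.conjStarAlgEquiv.symm_apply_apply _)
  right_inv y := Subtype.ext (W.conjStarAlgEquiv.apply_symm_apply _)
  map_one := Subtype.ext (map_one W.conjStarAlgEquiv)
  map_add _ _ := Subtype.ext (map_add W.conjStarAlgEquiv _ _)
  map_mul _ _ := Subtype.ext (map_mul W.conjStarAlgEquiv _ _)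
  map_adj _ := Subtype.ext (W.conjStarAlgEquiv.map_star' _)
  map_scal _ _ := Subtype.ext (map_smul W.conjStarAlgEquiv _ _)
  map_nrm _ := norm_conj W _
  map_tr _ := inner_conj W ξ _

end Pool.Agent.H414R3.FI
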